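import Mathlib
import Pool.Agent.Y696.XL.Res

/-!
# The exact law of the `√-3`-Selmer groups of the cubic twists over `ℚ(√-3)`

`K` is the field of third roots of unity, `E_D : y² + D y = x³`, and `D` runs through the squarefree
`D = 1` modulo `3` of `𝓞 K` whose norm is not `1` modulo `9`; there are at least `c X` such `D` of
norm at most `X`. `Sel(D)` is the Selmer group of the endomorphism `√-3` of `E_D` over `K`.

* `#Sel(D)` is the number of the solutions of the Laplacian system of the matrix of the cubic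
  residue symbols of the prime divisors of `D`.
* `#Sel(D) = 3 ^ (r + 1)` for some `r`, and then the rank of `E_D(K)` over `ℤ` is at most `2 r`; it
  is `3` if and only if `E_D(K)` is finite and `Ш(E_D / K)[3^∞] = 0`.
* For every `r` the proportion of the `D` with `#Sel(D) = 3 ^ (r + 1)` tends to
  `∏_{i ≥ 0} (1 - 3^{-(2 i + 1)}) / ((3 - 1) (9 - 1) ⋯ (3 ^ r - 1))`, the probability that the
  corank of a large random symmetric matrix over the field with three elements is `r`; these
  limits sum to one.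
* The average of `#Sel(D)` tends to `6`, and the average rank is at most `0.809` for large `X`.

`IsShaCoc` of the library: the continuous cocycles of the absolute Galois group of `K` with values
in the points over an algebraic closure that are coboundaries at all the places.

Joint work of helper31, helper275, helper968, helper994, helper170, helper697, helper363, helper710,
helper804, helper528, helper85, helper688, helper474, helper433, helper550, helper699, helper145,
helper350, helper703 and helper696 (projects XK, XL) and of the seats named in the headers of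
`Pool/Agent/Y703/CT` and of the files imported by `Pool/Agent/Y696/CTK/Fin.lean`.
-/

set_option autoImplicit false

namespace Pool.Agent.Results.MP_8cb858_nt.CubicTwistsSelmerLaw

open NumberField WeierstrassCurve
open Pool.Agent.TH841.SH.D (Coch)
open Pool.Agent.TH841.NF.D (Sha IsShaCoc)
open scoped Classical

variable {K : Type} [Field K] [NumberField K]

/-- The curve `E_D : y² + D y = x³`. -/
def curve (D : K) : WeierstrassCurve K := ⟨0, 0, D, 0, 0⟩

/-- The Selmer group of the endomorphism `√-3` of `E_D` over `K`: the continuous cocycles with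
values in its kernel `{0, (0, 0), (0, -D)}` that are coboundaries in `E_D` at all the places. (The
Galois group acts trivially on the kernel: different cocycles have different classes.) -/
def Selmer (D : K) : Set (Coch (curve D)) :=
  {f | IsShaCoc (curve D) f ∧ ∀ σ, f σ = 0 ∨ ∃ y h, f σ = Affine.Point.some 0 y h}

/-- The rank of `E_D(K)` over `ℤ`. -/
noncomputable def rank (D : K) : ℕ := Module.finrank ℤ (curve D).toAffine.Point

/-- `D` is squarefree and `1` modulo `3`, and its norm is not `1` modulo `9`. -/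
def InClass (D : 𝓞 K) : Prop :=
  (3 : 𝓞 K) ∣ D - 1 ∧ Squarefree D ∧ ¬ (9 : ℤ) ∣ Algebra.norm ℤ D - 1

/-- `E_D(K)` is finite and the `3`-primary part of `Ш(E_D / K)` is trivial. -/
def FiniteAndTrivial (D : 𝓞 K) : Prop :=
  Finite (curve (D : K)).toAffine.Point ∧ ∀ (n : ℕ) (x : Sha (curve (D : K))), 3 ^ n • x = 0 → x = 0

/-- `D` is the product of the primes `π i`, which are `1` modulo `3`, and the cubic residue symbol
of `π i` modulo `π j` is `ω ^ χ j i`. -/
def IsFactorization (ω D : 𝓞 K) (n : ℕ) (π : Fin n → 𝓞 K) (χ : Fin n → Fin n → ZMod 3) : Prop :=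
  (∀ i, Prime (π i) ∧ (3 : 𝓞 K) ∣ π i - 1) ∧ D = ∏ i, π i ∧
  ∀ i j, i ≠ j →
    π j ∣ π i ^ (((Algebra.norm ℤ (π j)).natAbs - 1) / 3) - ω ^ (χ j i).val

/-- The number of the solutions of the Laplacian system of `χ` over the field with three
elements. -/
noncomputable def solutions {n : ℕ} (χ : Fin n → Fin n → ZMod 3) : ℕ :=
  Nat.card {v : Fin n → ZMod 3 // ∀ j, ∑ i, χ j i * (v i - v j) = 0}

/-- `D` has a factorization, and for each one the order of the Selmer group is the number of the
solutions of the Laplacian system of the cubic residue symbols. -/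
def Formula (D : 𝓞 K) : Prop :=
  (∃ (ω : 𝓞 K) (n : ℕ) (π : Fin n → 𝓞 K) (χ : Fin n → Fin n → ZMod 3),
    ω ^ 2 + ω + 1 = 0 ∧ IsFactorization ω D n π χ) ∧
  ∀ (ω : 𝓞 K) (n : ℕ) (π : Fin n → 𝓞 K) (χ : Fin n → Fin n → ZMod 3),
    ω ^ 2 + ω + 1 = 0 → IsFactorization ω D n π χ → (Selmer (D : K)).ncard = solutions χ

/-- The `D` of the class of norm at most `X`. -/
def upTo (K : Type) [Field K] [NumberField K] (X : ℕ) : Set (𝓞 K) :=
  {D : 𝓞 K | Algebra.norm ℤ D ≤ X ∧ InClass D}

/-- `∏_{i ≥ 0} (1 - 3^{-(2 i + 1)}) / ((3 - 1) (9 - 1) ⋯ (3 ^ r - 1))`. -/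
noncomputable def prob (r : ℕ) : ℝ :=
  (∏' i : ℕ, (1 - (1 / 3 : ℝ) ^ (2 * i + 1))) / ∏ i ∈ Finset.range r, ((3 : ℝ) ^ (i + 1) - 1)

theorem result (K : Type) [Field K] [NumberField K] [IsCyclotomicExtension {3} ℚ K] :
    (∃ c : ℝ, 0 < c ∧ ∃ X₀ : ℕ, ∀ X : ℕ, X₀ ≤ X → c * X ≤ ((upTo K X).ncard : ℝ)) ∧
    (∀ D : 𝓞 K, InClass D → Formula D ∧
      (∃ r : ℕ, (Selmer (D : K)).ncard = 3 ^ (r + 1) ∧ rank (D : K) ≤ 2 * r) ∧
      ((Selmer (D : K)).ncard = 3 ↔ FiniteAndTrivial D)) ∧
    (∀ r : ℕ, Filter.Tendsto (fun X : ℕ =>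
      ({D : 𝓞 K | Algebra.norm ℤ D ≤ X ∧ InClass D ∧
        (Selmer (D : K)).ncard = 3 ^ (r + 1)}.ncard : ℝ) / ((upTo K X).ncard : ℝ))
      Filter.atTop (nhds (prob r))) ∧
    (0.639 < prob 0 ∧ prob 0 < 0.6391 ∧ HasSum prob 1) ∧
    Filter.Tendsto (fun X : ℕ =>
      (∑ᶠ D ∈ upTo K X, ((Selmer (D : K)).ncard : ℝ)) / ((upTo K X).ncard : ℝ))
      Filter.atTop (nhds 6) ∧
    ∃ X₀ : ℕ, ∀ X : ℕ, X₀ ≤ X →
      ∑ᶠ D ∈ upTo K X, (rank (D : K) : ℝ) ≤ 0.809 * ((upTo K X).ncard : ℝ) :=
  Pool.Agent.XL6.finalXL K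

end Pool.Agent.Results.MP_8cb858_nt.CubicTwistsSelmerLaw
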